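import Pool.Agent.Helper31.CY.St2
import Pool.Agent.Helper31.CY.St4

/-! # Project CY, module CTM: a piece of a catenoid is a minimal surface -/

set_option autoImplicit false

open Set Topology Filter

namespace Pool.Agent.Helper67.CY

open Pool.Agent.Helper31.CY

private theorem cont_coord (i : Fin 3) : Continuous (fun x : E3 => x i) :=
  (EuclideanSpace.proj (𝕜 := ℝ) i).continuous

private theorem cont_rad : Continuous rad := by
  unfold rad
  exact Real.continuous_sqrt.comp (((cont_coord 0).pow 2).add ((cont_coord 1).pow 2))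

private theorem abs_coord_le (x p : E3) (i : Fin 3) : |x i - p i| ≤ dist x p := by
  rw [dist_eq_norm]
  have h := PiLp.norm_apply_le (x - p) i
  rwa [Real.norm_eq_abs] at h

private theorem rad_sq (x : E3) : rad x ^ 2 = x 0 ^ 2 + x 1 ^ 2 := by
  unfold rad
  exact Real.sq_sqrt (by positivity)

private theorem rad_eq_iff {x : E3} {r : ℝ} (hr : 0 < r) :
    rad x = r ↔ x 0 ^ 2 + x 1 ^ 2 = r ^ 2 := by
  constructor
  · intro h
    rw [← rad_sq, h]
  · intro h
    unfold rad
    rw [h]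
    exact Real.sqrt_sq hr.le

private theorem norm_sq_eq (x : E3) : ‖x‖ ^ 2 = rad x ^ 2 + x 2 ^ 2 := by
  rw [rad_sq, EuclideanSpace.norm_sq_eq, Fin.sum_univ_three]
  simp only [Real.norm_eq_abs, sq_abs]

private theorem rot_apply_two (θ : ℝ) (x : E3) : rot θ x 2 = x 2 := rfl

private theorem rad_rot (θ : ℝ) (x : E3) : rad (rot θ x) = rad x := by
  have h0 : rot θ x 0 = Real.cos θ * x 0 - Real.sin θ * x 1 := rfl
  have h1 : rot θ x 1 = Real.sin θ * x 0 + Real.cos θ * x 1 := rfl
  unfold rad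
  rw [h0, h1]
  congr 1
  have h2 := Real.sin_sq_add_cos_sq θ
  linear_combination (x 0 ^ 2 + x 1 ^ 2) * h2

theorem hCTM (hCTF : StCTF) (hXR1 : StXR1) (hXB1 : StXB1) : StCTM := by
  intro S r0 r1 h hr0 hr1 hh hC
  obtain ⟨m, hm, hS⟩ := hC
  obtain ⟨c1, -, c3, c4, -⟩ := hCTF r0 m hr0
  have hcont : Continuous (cat r0 m) := continuous_iff_continuousAt.2 fun τ => (c4 τ).continuousAt
  have hposS : ∀ p : E3, p ∈ S → 0 < p 0 ^ 2 + p 1 ^ 2 := by
    intro p hp
    have h1 := ((hS p).1 hp).2.2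
    rw [← rad_sq, h1]
    exact pow_pos (c3 _) 2
  have hsub : circ r0 0 ∪ circ r1 h ⊆ S := by
    rintro x (hx | hx)
    · obtain ⟨h1, h2⟩ := hx
      rw [hS, h2, c1]
      exact ⟨le_rfl, hh.le, (rad_eq_iff hr0).2 h1⟩
    · obtain ⟨h1, h2⟩ := hx
      rw [hS, h2, hm]
      exact ⟨hh.le, le_rfl, (rad_eq_iff hr1).2 h1⟩
  refine ⟨⟨?_, hsub, ?_, ?_⟩, ?_⟩
  · have hcl : IsClosed S := by
      have e : S = {x : E3 | 0 ≤ x 2} ∩ ({x : E3 | x 2 ≤ h} ∩ {x : E3 | rad x = cat r0 m (x 2)}) := by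
        ext x
        exact hS x
      rw [e]
      exact (isClosed_le continuous_const (cont_coord 2)).inter
        ((isClosed_le (cont_coord 2) continuous_const).inter
          (isClosed_eq cont_rad (hcont.comp (cont_coord 2))))
    obtain ⟨C, hCb⟩ := isCompact_Icc.exists_bound_of_continuousOn
      (s := Icc (0 : ℝ) h) hcont.continuousOn
    refine Metric.isCompact_of_isClosed_isBounded hcl ?_
    refine (Metric.isBounded_closedBall (x := (0 : E3)) (r := |C| + h)).subset ?_
    intro x hx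
    obtain ⟨h1, h2, h3⟩ := (hS x).1 hx
    rw [mem_closedBall_zero_iff]
    have h4 := hCb (x 2) ⟨h1, h2⟩
    rw [Real.norm_eq_abs, ← h3] at h4
    have h5 : rad x ≤ |C| := (le_abs_self _).trans (h4.trans (le_abs_self C))
    have h6 : 0 ≤ rad x := Real.sqrt_nonneg _
    have h7 : ‖x‖ ^ 2 ≤ (|C| + h) ^ 2 := by
      rw [norm_sq_eq]
      have h8 : rad x ^ 2 ≤ |C| ^ 2 := pow_le_pow_left₀ h6 h5 2
      have h9 : x 2 ^ 2 ≤ h ^ 2 := pow_le_pow_left₀ h1 h2 2
      have h10 := mul_nonneg (abs_nonneg C) hh.le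
      nlinarith
    exact le_of_sq_le_sq h7 (add_nonneg (abs_nonneg C) hh.le)
  · intro p hp hpΓ
    left
    obtain ⟨h1, h2, h3⟩ := (hS p).1 hp
    have h4 : 0 < p 2 := by
      refine lt_of_le_of_ne h1 fun h5 => hpΓ (Or.inl ⟨?_, h5.symm⟩)
      rw [← h5, c1] at h3
      exact (rad_eq_iff hr0).1 h3
    have h5 : p 2 < h := by
      refine lt_of_le_of_ne h2 fun h6 => hpΓ (Or.inr ⟨?_, h6⟩)
      rw [h6, hm] at h3
      exact (rad_eq_iff hr1).1 h3
    refine hXR1 S p r0 m 0 (min (p 2) (h - p 2)) hr0 (hposS p hp)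
      (lt_min h4 (sub_pos.2 h5)) ?_
    intro x hx
    have h6 := (abs_coord_le x p 2).trans_lt hx
    rw [abs_lt] at h6
    have h7 := min_le_left (p 2) (h - p 2)
    have h8 := min_le_right (p 2) (h - p 2)
    rw [hS, sub_zero]
    constructor
    · intro h9
      exact h9.2.2
    · intro h9
      exact ⟨by linarith [h6.1], by linarith [h6.2], h9⟩
  · intro p hp
    have hpS := hsub hp
    rcases hp with hp | hp
    · obtain ⟨h1, h2⟩ := hp
      refine hXB1 S p r0 m 0 h 1 hr0 (hposS p hpS) hh (Or.inl rfl) ?_ ?_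
      · rw [sub_zero]
        exact ((hS p).1 hpS).2.2
      · intro x hx
        have h6 := (abs_coord_le x p 2).trans_lt hx
        rw [abs_lt, h2] at h6
        rw [hS, h2]
        simp only [sub_zero, one_mul]
        constructor
        · intro h9
          exact ⟨h9.1, h9.2.2⟩
        · intro h9
          exact ⟨h9.1, by linarith [h6.2], h9.2⟩
    · obtain ⟨h1, h2⟩ := hp
      refine hXB1 S p r0 m 0 h (-1) hr0 (hposS p hpS) hh (Or.inr rfl) ?_ ?_
      · rw [sub_zero]
        exact ((hS p).1 hpS).2.2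
      · intro x hx
        have h6 := (abs_coord_le x p 2).trans_lt hx
        rw [abs_lt, h2] at h6
        rw [hS, h2]
        simp only [sub_zero]
        constructor
        · intro h9
          exact ⟨by linarith [h9.2.1], h9.2.2⟩
        · intro h9
          exact ⟨by linarith [h6.1], by linarith [h9.1], h9.2⟩
  · intro θ x hx
    rw [hS] at hx ⊢
    rw [rad_rot, rot_apply_two]
    exact hx

end Pool.Agent.Helper67.CY
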